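import Pool.Agent.H94R3.SigmaNeg

/-!
# A Fréchet d-separable space that is not D-separable

In ZFC, the `Σ`-product `Σ(2^𝔠)` of `𝔠` copies of the two-point discrete space is a Tychonoff
Fréchet d-separable space which is not D-separable.  This answers Q1 in the negative.
-/

set_option autoImplicit false

open Set Topology Cardinal

namespace Pool.Agent.Results.MP_339821_gt.FrechetNotDSeparable

open Pool.Agent.H94R3.Sigma

/-- There is (in ZFC) a Tychonoff Fréchet space `X` that is d-separable (it has a dense
`σ`-discrete subset) but not D-separable. -/
theorem result : ∃ (X : Type) (_ : TopologicalSpace X), T35Space X ∧ FrechetUrysohnSpace X ∧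
    WeaklyDSeparable X ∧ ¬ SelectivelyDSeparable X := by
  refine ⟨SigmaCantor (ℕ → Bool), inferInstance, inferInstance, frechet, weaklyDSeparable,
    not_selectivelyDSeparable ?_⟩
  simp

end Pool.Agent.Results.MP_339821_gt.FrechetNotDSeparable
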