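import Pool.Agent.H94R3.SigmaPos

/-!
# D-separability of the `Σ`-products `Σ(2^κ)`

`Σ(2^κ)` is not D-separable if `κ^ω = κ` (for instance if `κ = 𝔠`), and it is D-separable if `κ`
has countable cofinality.
-/

set_option autoImplicit false

open Set Topology Cardinal

namespace Pool.Agent.Results.MP_339821_gt.SigmaProducts

open Pool.Agent.H94R3.Sigma

universe u

/-- Let `κ = |I|` be an infinite cardinal. If `κ^ω = κ` then `Σ(2^κ)` is not D-separable. If `κ` has
countable cofinality then `Σ(2^κ)` is D-separable. -/
theorem result (I : Type u) [Infinite I] :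
    (#I ^ ℵ₀ = #I → ¬ SelectivelyDSeparable (SigmaCantor I)) ∧
    ((#I).ord.cof = ℵ₀ → SelectivelyDSeparable (SigmaCantor I)) :=
  ⟨not_selectivelyDSeparable, selectivelyDSeparable⟩

end Pool.Agent.Results.MP_339821_gt.SigmaProducts
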